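import Mathlib
import Pool.Agent.H820.TC.Stm

/-!
# The dimension of a space of alternating forms with values in a small space (`S_count`)
-/

set_option autoImplicit false

namespace Pool.Agent.H323.TC

open Module Pool.Agent.H820.TC

lemma card_pairs (c : ℕ) :
    2 * Fintype.card {p : Fin c × Fin c // p.1 < p.2} ≤ c * (c - 1) := by
  classical
  have e1 : Fintype.card {p : Fin c × Fin c // p.1 < p.2} =
      (Finset.univ.filter fun p : Fin c × Fin c => p.1 < p.2).card :=
    Fintype.card_subtype _
  have e2 : (Finset.univ.filter fun p : Fin c × Fin c => p.2 < p.1).card =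
      (Finset.univ.filter fun p : Fin c × Fin c => p.1 < p.2).card := by
    apply Finset.card_bij (fun p _ => (p.2, p.1))
    · intro p hp
      simp only [Finset.mem_filter, Finset.mem_univ, true_and] at hp ⊢
      exact hp
    · rintro ⟨a, b⟩ _ ⟨a', b'⟩ _ h
      simp only [Prod.mk.injEq] at h
      exact Prod.ext h.2 h.1
    · rintro ⟨a, b⟩ hp
      simp only [Finset.mem_filter, Finset.mem_univ, true_and] at hp
      exact ⟨(b, a), by simpa using hp, rfl⟩
  have hdisj : Disjoint (Finset.univ.filter fun p : Fin c × Fin c => p.1 < p.2)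
      (Finset.univ.filter fun p : Fin c × Fin c => p.2 < p.1) := by
    rw [Finset.disjoint_filter]
    intro p _ h1 h2
    exact lt_asymm h1 h2
  have hsub : (Finset.univ.filter fun p : Fin c × Fin c => p.1 < p.2) ∪
      (Finset.univ.filter fun p : Fin c × Fin c => p.2 < p.1) ⊆
      (Finset.univ : Finset (Fin c)).offDiag := by
    intro p hp
    rw [Finset.mem_offDiag]
    refine ⟨Finset.mem_univ _, Finset.mem_univ _, ?_⟩
    rw [Finset.mem_union, Finset.mem_filter, Finset.mem_filter] at hp
    rcases hp with h | h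
    · exact ne_of_lt h.2
    · exact (ne_of_lt h.2).symm
  have h3 := Finset.card_le_card hsub
  rw [Finset.card_union_of_disjoint hdisj, e2, Finset.offDiag_card, Finset.card_univ,
    Fintype.card_fin] at h3
  rw [e1, Nat.mul_sub, mul_one]
  omega

theorem t_count : S_count := by
  intro X _ _ _ D hD S hS g hg
  have halt : ∀ b ∈ D, ∀ x y, b x y = -b y x := by
    intro b hb x y
    have h1 := hD b hb (x + y)
    simp only [map_add, LinearMap.add_apply, hD b hb x, hD b hb y, zero_add, add_zero] at h1
    linarith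
  obtain ⟨C, hC⟩ := Submodule.exists_isCompl S.dualCoannihilator
  have hdim : finrank ℝ C = finrank ℝ S := by
    have h1 : finrank ℝ S + finrank ℝ S.dualCoannihilator = finrank ℝ X :=
      Subspace.finrank_add_finrank_dualCoannihilator_eq S
    have h2 : finrank ℝ S.dualCoannihilator + finrank ℝ C = finrank ℝ X :=
      Submodule.finrank_add_eq_of_isCompl hC
    omega
  -- forms of `D` vanish if one argument is in the coannihilator
  have hN1 : ∀ b ∈ D, ∀ x, ∀ y ∈ S.dualCoannihilator, b x y = 0 := by
    intro b hb x y hy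
    exact (Submodule.mem_dualCoannihilator y).1 hy (b x) (hS b hb x)
  have hN2 : ∀ b ∈ D, ∀ x ∈ S.dualCoannihilator, ∀ y, b x y = 0 := by
    intro b hb x hx y
    rw [halt b hb, hN1 b hb y x hx, neg_zero]
  let u := Module.finBasis ℝ C
  let ψ : D →ₗ[ℝ] ({p : Fin (finrank ℝ C) × Fin (finrank ℝ C) // p.1 < p.2} → ℝ) :=
    { toFun := fun b p => b.1 (u p.1.1 : X) (u p.1.2 : X)
      map_add' := fun b b' => rfl
      map_smul' := fun r b => rfl }
  have key : ∀ b ∈ D, (∀ i j, i < j → b (u i : X) (u j : X) = 0) → ∀ x y, b x y = 0 := by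
    intro b hb h0
    have h1 : ∀ i j, b (u i : X) (u j : X) = 0 := by
      intro i j
      rcases lt_trichotomy i j with hij | rfl | hij
      · exact h0 i j hij
      · exact hD b hb _
      · rw [halt b hb, h0 j i hij, neg_zero]
    -- vanishing on `C`
    have h2 : ∀ i, (b (u i : X)).comp C.subtype = 0 := by
      intro i
      apply u.ext
      intro j
      exact h1 i j
    have h3 : ∀ y : C, (b.flip (y : X)).comp C.subtype = 0 := by
      intro y
      apply u.ext
      intro i
      exact LinearMap.congr_fun (h2 i) y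
    have h4 : ∀ x y : C, b (x : X) (y : X) = 0 := fun x y => LinearMap.congr_fun (h3 y) x
    intro x y
    have hx : x ∈ S.dualCoannihilator ⊔ C := by rw [hC.sup_eq_top]; trivial
    have hy : y ∈ S.dualCoannihilator ⊔ C := by rw [hC.sup_eq_top]; trivial
    obtain ⟨x1, hx1, x2, hx2, rfl⟩ := Submodule.mem_sup.1 hx
    obtain ⟨y1, hy1, y2, hy2, rfl⟩ := Submodule.mem_sup.1 hy
    simp only [map_add, LinearMap.add_apply, hN1 b hb _ y1 hy1, hN2 b hb x1 hx1, zero_add]
    exact h4 ⟨x2, hx2⟩ ⟨y2, hy2⟩
  have hψ : Function.Injective ψ := by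
    rintro ⟨b, hb⟩ ⟨b', hb'⟩ h
    apply Subtype.ext
    show b = b'
    have h1 : b + (-1 : ℝ) • b' ∈ D := D.add_mem hb (D.smul_mem _ hb')
    have h2 := key _ h1 (by
      intro i j hij
      have h3 : b (u i : X) (u j : X) = b' (u i : X) (u j : X) := congrFun h ⟨(i, j), hij⟩
      simp only [LinearMap.add_apply, LinearMap.smul_apply, smul_eq_mul, h3]
      ring)
    apply LinearMap.ext
    intro x
    apply LinearMap.ext
    intro y
    have h4 := h2 x y
    simp only [LinearMap.add_apply, LinearMap.smul_apply, smul_eq_mul] at h4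
    linarith
  have h5 := LinearMap.finrank_le_finrank_of_injective hψ
  rw [Module.finrank_fintype_fun_eq_card] at h5
  have h6 := card_pairs (finrank ℝ C)
  rw [hdim] at h5 h6
  have h7 : finrank ℝ S * (finrank ℝ S - 1) ≤ g * (g - 1) :=
    Nat.mul_le_mul hg (Nat.sub_le_sub_right hg 1)
  omega

end Pool.Agent.H323.TC
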