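import Mathlib
import Pool.Agent.H820.TC.Stm

/-!
# The maximal rank lemma (`S_MR`)
-/

set_option autoImplicit false

namespace Pool.Agent.H323.TC

open Module Pool.Agent.H820.TC

/-- `1 + t M` is injective for some `t ≠ 0` -/
lemma exists_inj {E : Type} [AddCommGroup E] [Module ℝ E] [FiniteDimensional ℝ E]
    (M : E →ₗ[ℝ] E) : ∃ t : ℝ, t ≠ 0 ∧ ∀ x : E, x + t • M x = 0 → x = 0 := by
  have h1 : (Set.Finite (Module.End.HasEigenvalue M)) := Module.End.finite_hasEigenvalue M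
  have h2 : ((Module.End.HasEigenvalue M) ∪ {(0 : ℝ)} : Set ℝ).Finite :=
    h1.union (Set.finite_singleton 0)
  obtain ⟨μ, hμ⟩ := h2.exists_notMem
  have hμ0 : μ ≠ 0 := fun h => hμ (Or.inr h)
  have hμ1 : ¬ Module.End.HasEigenvalue M μ := fun h => hμ (Or.inl h)
  refine ⟨-μ⁻¹, neg_ne_zero.2 (inv_ne_zero hμ0), ?_⟩
  intro x hx
  by_contra hx0
  apply hμ1
  apply Module.End.hasEigenvalue_of_hasEigenvector (x := x)
  rw [Module.End.hasEigenvector_iff]
  refine ⟨?_, hx0⟩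
  rw [Module.End.mem_eigenspace_iff]
  have h3 : x = μ⁻¹ • M x := by
    rw [neg_smul] at hx
    exact add_neg_eq_zero.1 hx
  conv_rhs => rw [h3]
  rw [smul_smul, mul_inv_cancel₀ hμ0, one_smul]

theorem t_MR : S_MR := by
  intro P D Y _ _ _ _ _ _ _ Φ
  -- the largest rank
  obtain ⟨p₀, hp₀⟩ : ∃ p₀ : P, ∀ p, finrank ℝ (LinearMap.range (Φ p)) ≤
      finrank ℝ (LinearMap.range (Φ p₀)) := by
    have hne : (Set.range fun p => finrank ℝ (LinearMap.range (Φ p))).Nonempty :=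
      ⟨_, ⟨0, rfl⟩⟩
    have hbd : BddAbove (Set.range fun p => finrank ℝ (LinearMap.range (Φ p))) := by
      refine ⟨finrank ℝ D, ?_⟩
      rintro _ ⟨p, rfl⟩
      exact LinearMap.finrank_range_le (Φ p)
    obtain ⟨p₀, hp₀⟩ := Nat.sSup_mem hne hbd
    refine ⟨p₀, fun p => ?_⟩
    have h1 : finrank ℝ (LinearMap.range (Φ p)) ≤
        sSup (Set.range fun p => finrank ℝ (LinearMap.range (Φ p))) :=
      le_csSup hbd ⟨p, rfl⟩
    rw [← hp₀] at h1
    exact h1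
  refine ⟨p₀, hp₀, ?_⟩
  intro b hb q
  by_contra hcon
  have hy : Φ q b ∉ LinearMap.range (Φ p₀) := fun ⟨b', hb'⟩ => hcon ⟨b', hb'⟩
  -- the injective map `R × ℝ → Y`
  let ι : (LinearMap.range (Φ p₀)) × ℝ →ₗ[ℝ] Y :=
    (LinearMap.range (Φ p₀)).subtype.coprod (LinearMap.toSpanSingleton ℝ Y (Φ q b))
  have hι : ∀ x, ι x = (x.1 : Y) + x.2 • Φ q b := fun x => rfl
  have hker : LinearMap.ker ι = ⊥ := by
    rw [LinearMap.ker_eq_bot']
    rintro ⟨r, c⟩ hx
    rw [hι] at hx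
    simp only at hx
    have hc : c = 0 := by
      by_contra hc
      apply hy
      have h1 : Φ q b = c⁻¹ • (-(r : Y)) := by
        rw [← eq_neg_of_add_eq_zero_right hx, smul_smul, inv_mul_cancel₀ hc, one_smul]
      rw [h1]
      exact Submodule.smul_mem _ _ (Submodule.neg_mem _ r.2)
    rw [hc, zero_smul, add_zero] at hx
    have hr : r = 0 := Subtype.ext hx
    rw [hr, hc]; rfl
  obtain ⟨L, hL⟩ := ι.exists_leftInverse_of_injective hker
  have hL' : ∀ x, L ((x.1 : Y) + x.2 • Φ q b) = x := fun x => LinearMap.congr_fun hL x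
  obtain ⟨σ, hσ⟩ := (Φ p₀).rangeRestrict.exists_rightInverse_of_surjective
    (LinearMap.range_rangeRestrict (Φ p₀))
  have hσ' : ∀ r, Φ p₀ (σ r) = (r : Y) := by
    intro r
    have := LinearMap.congr_fun hσ r
    exact congrArg Subtype.val this
  let M : (LinearMap.range (Φ p₀)) × ℝ →ₗ[ℝ] (LinearMap.range (Φ p₀)) × ℝ :=
    L ∘ₗ (Φ q) ∘ₗ σ ∘ₗ (LinearMap.fst ℝ (LinearMap.range (Φ p₀)) ℝ)
  have hM : ∀ x, M x = L (Φ q (σ x.1)) := fun x => rfl
  obtain ⟨t, ht, hinj⟩ := exists_inj M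
  -- the map `(r, c) ↦ σ r + (c / t) b`
  let K : (LinearMap.range (Φ p₀)) × ℝ →ₗ[ℝ] D :=
    σ.coprod (LinearMap.toSpanSingleton ℝ D (t⁻¹ • b))
  have hK : ∀ x, K x = σ x.1 + x.2 • (t⁻¹ • b) := fun x => rfl
  have hN : ∀ x, Φ (p₀ + t • q) (K x) = (x.1 : Y) + x.2 • Φ q b + t • Φ q (σ x.1) := by
    intro x
    rw [hK]
    simp only [map_add, map_smul, LinearMap.add_apply, LinearMap.smul_apply, hb, hσ', zero_add]
    rw [smul_smul x.2, smul_smul _ t, mul_assoc, inv_mul_cancel₀ ht, mul_one]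
    abel
  have hNinj : Function.Injective (Φ (p₀ + t • q) ∘ₗ K) := by
    rw [← LinearMap.ker_eq_bot, LinearMap.ker_eq_bot']
    intro x hx
    apply hinj
    have h1 : L (Φ (p₀ + t • q) (K x)) = 0 := by
      have : Φ (p₀ + t • q) (K x) = 0 := hx
      rw [this, map_zero]
    rw [hN, map_add, hL', map_smul, ← hM] at h1
    exact h1
  have h1 : finrank ℝ ((LinearMap.range (Φ p₀)) × ℝ) =
      finrank ℝ (LinearMap.range (Φ (p₀ + t • q) ∘ₗ K)) :=
    (LinearMap.finrank_range_of_inj hNinj).symm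
  have h2 : finrank ℝ (LinearMap.range (Φ (p₀ + t • q) ∘ₗ K)) ≤
      finrank ℝ (LinearMap.range (Φ (p₀ + t • q))) :=
    Submodule.finrank_mono (LinearMap.range_comp_le_range _ _)
  have h3 := hp₀ (p₀ + t • q)
  rw [Module.finrank_prod, Module.finrank_self] at h1
  omega

end Pool.Agent.H323.TC
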